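import Pool.Agent.Q297.ChainGraph

open MeasureTheory Q297.Factor

namespace Pool.Agent.Results.MP_71d783_pr.MatchingNoOrientation

/-- **A quasi-transitive `4`-regular graph with a factor-of-iid perfect matching, but with neither
a factor-of-iid Schreier decoration nor a factor-of-iid balanced orientation.**  The negative part
is proved for the weaker notion of factor, where equivariance is only required almost surely. -/
theorem result :
    ∃ (V : Type) (_ : Countable V) (G : SimpleGraph V) (d : ℕ), 1 ≤ d ∧ G.Connected ∧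
      (∀ v, (G.neighborSet v).encard = 2 * d) ∧ QuasiTransitive G ∧
      (∃ Φ : (V → unitInterval) → V → V → Bool, IsFactor G Φ ∧
        ∀ᵐ ω ∂labels V, IsPerfectMatching G (Φ ω)) ∧
      (¬ ∃ Φ : (V → unitInterval) → V → V → Option (Fin d), IsFactorAE G Φ ∧
        ∀ᵐ ω ∂labels V, IsSchreier G d (Φ ω)) ∧
      (¬ ∃ Φ : (V → unitInterval) → V → V → Bool, IsFactorAE G Φ ∧
        ∀ᵐ ω ∂labels V, IsBalancedOrientation G d (Φ ω)) := by
  refine ⟨Q297.Chain.V, inferInstance, Q297.Chain.G, 2, by norm_num, Q297.Chain.connected,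
    Q297.Chain.regular, Q297.Chain.quasi, Q297.Chain.exists_matching, ?_,
    Q297.Chain.no_orientation⟩
  rintro ⟨Φ, hΦ, hS⟩
  exact Q297.Chain.no_orientation ⟨_, hΦ.schreier_orientation, hS.mono fun ω h => h.balanced⟩

end Pool.Agent.Results.MP_71d783_pr.MatchingNoOrientation
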